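import Mathlib

/-! # Project KSZ (MP_768c9c_nt), section 2 of KS_H60_counting.md: statements of A7, A11, A12 and of
their combination A13. -/

set_option autoImplicit false

open MeasureTheory Finset

namespace Pool.Agent.Helper10.KSZ

/-- (A7) growth on the line `2/7` (a hypothesis on the line `5/7` may be assumed: `A5half`). -/
def A7 : Prop := ∃ C : ℝ, 0 < C ∧ ∀ t : ℝ, 2 ≤ |t| →
  ‖riemannZeta ((2 / 7 : ℝ) + (t : ℂ) * Complex.I)‖ ≤ C * |t| ^ (2 / 7 : ℝ) * Real.log |t|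

/-- the case `sigma = 5/7` of (A5), hypothesis of (A7) -/
def A5half : Prop := ∃ C : ℝ, 0 < C ∧ ∀ t : ℝ, 2 ≤ |t| →
  ‖riemannZeta ((5 / 7 : ℝ) + (t : ℂ) * Complex.I)‖ ≤ C * |t| ^ (1 / 14 : ℝ) * Real.log |t|

/-- (A11) mean value with Gaussian weight, finite families -/
def A11 : Prop := ∃ C : ℝ, 0 < C ∧ ∀ (ι : Type) (S : Finset ι) (a : ι → ℂ) (y : ι → ℝ) (T : ℝ),
  0 < T →
  Integrable (fun t : ℝ => Real.exp (-(t / T) ^ 2) *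
    ‖∑ j ∈ S, a j * Complex.exp (Complex.I * (y j * t : ℝ))‖ ^ 2) ∧
  ∫ t : ℝ, Real.exp (-(t / T) ^ 2) *
    ‖∑ j ∈ S, a j * Complex.exp (Complex.I * (y j * t : ℝ))‖ ^ 2 ≤
    C * T * ∑ j ∈ S, ∑ k ∈ S, if |y j - y k| ≤ 1 / T then ‖a j‖ * ‖a k‖ else 0

open Classical in
/-- (A11') doubling: pairs at distance `m/T` against pairs at distance `1/T`, nonnegative weights -/
def A11' : Prop := ∀ (ι : Type) (S : Finset ι) (a : ι → ℝ) (y : ι → ℝ) (T : ℝ) (m : ℕ),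
  0 < T → (∀ j ∈ S, 0 ≤ a j) →
  (∑ j ∈ S, ∑ k ∈ S, if |y j - y k| ≤ m / T then a j * a k else 0) ≤
    (2 * m + 3) * ∑ j ∈ S, ∑ k ∈ S, if |y j - y k| ≤ 1 / T then a j * a k else 0

/-- (A12) subharmonicity on a disc, `F` entire -/
def A12 : Prop := ∀ F : ℂ → ℂ, Differentiable ℂ F → ∀ (z : ℂ) (r : ℝ), 0 < r →
  ‖F z‖ ^ 2 ≤ 1 / (Real.pi * r ^ 2) * ∫ w in Metric.closedBall z r, ‖F w‖ ^ 2

/-- (A12') the same for a finite set of points at distances larger than `2 r`, inside a rectangle -/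
def A12' : Prop := ∀ F : ℂ → ℂ, Differentiable ℂ F → ∀ (Z : Finset ℂ) (r σ₁ σ₂ t₁ t₂ : ℝ), 0 < r →
  σ₁ ≤ σ₂ → t₁ ≤ t₂ → (∀ z ∈ Z, ∀ w ∈ Z, z ≠ w → 2 * r < dist z w) →
  (∀ z ∈ Z, σ₁ ≤ z.re - r ∧ z.re + r ≤ σ₂ ∧ t₁ ≤ z.im - r ∧ z.im + r ≤ t₂) →
  ∑ z ∈ Z, ‖F z‖ ^ 2 ≤
    1 / (Real.pi * r ^ 2) * ∫ σ in σ₁..σ₂, ∫ t in t₁..t₂, ‖F (σ + t * Complex.I)‖ ^ 2

/-- (A13) = A12' + A11: exponential polynomials with real frequencies at separated points.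
`B` is any bound for the near-diagonal sum on all the lines `σ ∈ [σ₁ - r, σ₂ + r]`. -/
def A13 : Prop := ∃ C : ℝ, 0 < C ∧ ∀ (ι : Type) (S : Finset ι) (a : ι → ℂ) (y : ι → ℝ)
  (Z : Finset ℂ) (r σ₁ σ₂ T B : ℝ), 0 < r → r ≤ 1 → σ₁ ≤ σ₂ → 1 ≤ T →
  (∀ z ∈ Z, ∀ w ∈ Z, z ≠ w → 2 * r < dist z w) →
  (∀ z ∈ Z, σ₁ ≤ z.re ∧ z.re ≤ σ₂ ∧ |z.im| ≤ T) →
  (∀ σ : ℝ, σ₁ - r ≤ σ → σ ≤ σ₂ + r →
    (∑ j ∈ S, ∑ k ∈ S, if |y j - y k| ≤ 1 / T then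
      ‖a j‖ * ‖a k‖ * Real.exp (σ * (y j + y k)) else 0) ≤ B) →
  ∑ z ∈ Z, ‖∑ j ∈ S, a j * Complex.exp (y j * z)‖ ^ 2 ≤
    C * ((σ₂ - σ₁ + 2 * r) / r ^ 2) * T * B

end Pool.Agent.Helper10.KSZ
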